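import Pool.Agent.P8H69.IE.Asm
import Pool.Agent.P8H88.IE.Fib
import Pool.Agent.P8H82.IE.Exi
import Pool.Agent.P8H80.IE.Cnt
import Pool.Agent.P8H85.IE.Inq
import Pool.Agent.P8H38.IE.Crt

/-!
# Almost all interlacing edges of the Schrijver graphs are critical

`SG n k` is the Schrijver graph, `IEdges n k` the set of its interlacing edges, `Crit n k e` says that
deleting the edge `e` lowers the chromatic number.
-/

set_option autoImplicit false

namespace Pool.Agent.Results.MP_42f12b_co.AlmostAllInterlacing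

open Pool.Agent.X80.SG Pool.Agent.P8H69.IE

/-- Let `k ≥ 9` and `d² ≤ k`. The Schrijver graph `SG(2k+d,k)` has exactly `C(2k+d,d)` interlacing edges; the
proportion of those which are not critical is at most `d⁴ / k²`, and an interlacing edge `VW` is critical
unless the set `V ∪ W` is exceptional (`Bad`). -/
theorem result (k d : ℕ) (hk : 9 ≤ k) (hd : d ^ 2 ≤ k) :
    (IEdges (2 * k + d) k).ncard = (2 * k + d).choose d ∧
    k ^ 2 * {e ∈ IEdges (2 * k + d) k | ¬ Crit (2 * k + d) k e}.ncard ≤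
      d ^ 4 * (2 * k + d).choose d ∧
    {e ∈ IEdges (2 * k + d) k | ¬ Crit (2 * k + d) k e}.ncard ≤
      ((2 * k + d) ^ 2 + (2 * k + d) * (2 * d) ^ 2) * (2 * k + d - 4).choose (2 * k) ∧
    ∀ V W : Vert (2 * k + d) k, (SG (2 * k + d) k).Adj V W → Interlacing V.1 W.1 →
      ¬ Bad d (V.1 ∪ W.1) → Crit (2 * k + d) k s(V, W) :=
  main Pool.Agent.P8H88.IE.fib Pool.Agent.P8H82.IE.exi Pool.Agent.P8H80.IE.cnt
    Pool.Agent.P8H85.IE.inq Pool.Agent.P8H38.IE.crt k d hk hd

end Pool.Agent.Results.MP_42f12b_co.AlmostAllInterlacing
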